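import Mathlib

set_option autoImplicit false

open Finset Filter Topology

namespace Pool.Agent.Results.MP_313e16_pr.NotMonotone

/-- Configurations of `N` players on a cycle (`true` = last toss won). -/
abbrev Conf (N : ℕ) : Type := Fin N → Bool

section defs
variable {K : Type} [Field K] {N : ℕ} [NeZero N]

/-- `m_i(x) = 2 x_{i-1} + x_{i+1}`, cyclic indices. -/
def nb (x : Conf N) (i : Fin N) : Fin 4 :=
  ⟨2 * (x (i - 1)).toNat + (x (i + 1)).toNat, by
    have h1 : (x (i - 1)).toNat ≤ 1 := Bool.toNat_le _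
    have h2 : (x (i + 1)).toNat ≤ 1 := Bool.toNat_le _
    omega⟩

/-- `x` with coordinate `i` flipped. -/
def flp (x : Conf N) (i : Fin N) : Conf N := Function.update x i (!(x i))

/-- The rate of the move from `x` to `x^i`. -/
def rate (p : Fin 4 → K) (x : Conf N) (i : Fin N) : K :=
  (N : K)⁻¹ * (if x i then 1 - p (nb x i) else p (nb x i))

/-- The transition matrix: `P(x, x^i) = rate`, the remaining mass stays at `x`. -/
def P (p : Fin 4 → K) (x y : Conf N) : K :=
  ∑ i, (if y = flp x i then rate p x i else 0) + if y = x then 1 - ∑ i, rate p x i else 0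

/-- `μ^N` computed from a stationary vector `π`. -/
def mean (p : Fin 4 → K) (π : Conf N → K) : K :=
  (N : K)⁻¹ * ∑ x, π x * ∑ i, (p (nb x i) - (1 - p (nb x i)))

end defs

/-- `π` is a stationary probability vector. -/
def Stationary {N : ℕ} [NeZero N] (p : Fin 4 → ℝ) (π : Conf N → ℝ) : Prop :=
  (∀ x, 0 ≤ π x) ∧ ∑ x, π x = 1 ∧ ∀ y, ∑ x, π x * P p x y = π y

/-- The chain is ergodic with stationary distribution `π`: `π` is the unique stationary
distribution and the law at time `n` converges to `π` from every initial distribution. -/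
def ErgodicWith {N : ℕ} [NeZero N] (p : Fin 4 → ℝ) (π : Conf N → ℝ) : Prop :=
  Stationary p π ∧ (∀ π', Stationary p π' → π' = π) ∧
  ∀ ν : Conf N → ℝ, (∀ x, 0 ≤ ν x) → ∑ x, ν x = 1 →
    ∀ y, Tendsto (fun n : ℕ => ∑ x, ν x * ((Matrix.of (P p)) ^ n) x y) atTop (𝓝 (π y))

section ergodic

variable {S : Type} [Fintype S] [DecidableEq S]

/-- contraction of signed vectors of total mass zero -/
theorem contract (K : S → S → ℝ) (h0 : ∀ x y, 0 ≤ K x y) (h1 : ∀ x, ∑ y, K x y = 1) (z : S)
    (δ : ℝ) (hδ : ∀ x, δ ≤ K x z) (s : S → ℝ) (hs : ∑ x, s x = 0) :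
    ∑ y, |∑ x, s x * K x y| ≤ (1 - δ) * ∑ x, |s x| := by
  set K' : S → S → ℝ := fun x y => K x y - if y = z then δ else 0 with hK'
  have e1 : ∀ y, ∑ x, s x * K x y = ∑ x, s x * K' x y := by
    intro y
    have : ∑ x, s x * K' x y = ∑ x, s x * K x y - (∑ x, s x) * (if y = z then δ else 0) := by
      rw [Finset.sum_mul, ← Finset.sum_sub_distrib]
      refine Finset.sum_congr rfl fun x _ => ?_
      simp only [hK']; ring
    rw [this, hs, zero_mul, sub_zero]
  have K'0 : ∀ x y, 0 ≤ K' x y := by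
    intro x y
    simp only [hK']
    split_ifs with h
    · rw [h]; linarith [hδ x]
    · linarith [h0 x y]
  have K'1 : ∀ x, ∑ y, K' x y = 1 - δ := by
    intro x
    simp only [hK', Finset.sum_sub_distrib, h1, Finset.sum_ite_eq', Finset.mem_univ, if_true]
  calc ∑ y, |∑ x, s x * K x y| = ∑ y, |∑ x, s x * K' x y| := by simp only [e1]
    _ ≤ ∑ y, ∑ x, |s x| * K' x y := by
        apply Finset.sum_le_sum
        intro y _
        refine (Finset.abs_sum_le_sum_abs _ _).trans (le_of_eq ?_)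
        refine Finset.sum_congr rfl fun x _ => ?_
        rw [abs_mul, abs_of_nonneg (K'0 x y)]
    _ = (1 - δ) * ∑ x, |s x| := by
        rw [Finset.sum_comm, Finset.mul_sum]
        refine Finset.sum_congr rfl fun x _ => ?_
        rw [← Finset.mul_sum, K'1, mul_comm]

theorem pow_stoch (K : Matrix S S ℝ) (h0 : ∀ x y, 0 ≤ K x y) (h1 : ∀ x, ∑ y, K x y = 1) (n : ℕ) :
    (∀ x y, 0 ≤ (K ^ n) x y) ∧ ∀ x, ∑ y, (K ^ n) x y = 1 := by
  induction n with
  | zero =>
    refine ⟨fun x y => ?_, fun x => ?_⟩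
    · rw [pow_zero, Matrix.one_apply]; split_ifs <;> norm_num
    · simp [Matrix.one_apply]
  | succ n ih =>
    refine ⟨fun x y => ?_, fun x => ?_⟩
    · rw [pow_succ, Matrix.mul_apply]
      exact Finset.sum_nonneg fun z _ => mul_nonneg (ih.1 x z) (h0 z y)
    · simp only [pow_succ, Matrix.mul_apply]
      rw [Finset.sum_comm]
      simp only [← Finset.mul_sum, h1, mul_one]
      exact ih.2 x

theorem converge (K : Matrix S S ℝ) (h0 : ∀ x y, 0 ≤ K x y) (h1 : ∀ x, ∑ y, K x y = 1) (z : S)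
    (δ : ℝ) (hδ0 : 0 < δ) (hδ1 : δ ≤ 1) (k : ℕ) (hδ : ∀ x, δ ≤ (K ^ k) x z) (s : S → ℝ)
    (hs : ∑ x, s x = 0) : Tendsto (fun n : ℕ => ∑ y, |∑ x, s x * (K ^ n) x y|) atTop (𝓝 0) := by
  set a : ℕ → ℝ := fun n => ∑ y, |∑ x, s x * (K ^ n) x y| with ha
  have a0 : ∀ n, 0 ≤ a n := fun n => Finset.sum_nonneg fun _ _ => abs_nonneg _
  have mass : ∀ n, ∑ y, ∑ x, s x * (K ^ n) x y = 0 := by
    intro n
    rw [Finset.sum_comm]
    simp only [← Finset.mul_sum, (pow_stoch K h0 h1 n).2, mul_one]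
    exact hs
  have comp : ∀ n m y, ∑ x, s x * (K ^ (n + m)) x y =
      ∑ w, (∑ x, s x * (K ^ n) x w) * (K ^ m) w y := by
    intro n m y
    simp only [pow_add, Matrix.mul_apply, Finset.mul_sum, Finset.sum_mul]
    rw [Finset.sum_comm]
    refine Finset.sum_congr rfl fun w _ => Finset.sum_congr rfl fun x _ => ?_
    ring
  have step : ∀ n, a (n + k) ≤ (1 - δ) * a n := by
    intro n
    simp only [ha, comp n k]
    exact contract (K ^ k) (pow_stoch K h0 h1 k).1 (pow_stoch K h0 h1 k).2 z δ hδ _ (mass n)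
  have anti : ∀ n, a (n + 1) ≤ a n := by
    intro n
    simp only [ha, comp n 1]
    have := contract (K ^ 1) (pow_stoch K h0 h1 1).1 (pow_stoch K h0 h1 1).2 z 0
      (fun x => (pow_stoch K h0 h1 1).1 x z) _ (mass n)
    rw [sub_zero, one_mul] at this
    exact this
  have anti' : Antitone a := antitone_nat_of_succ_le anti
  have geo : ∀ q : ℕ, a (q * k) ≤ (1 - δ) ^ q * a 0 := by
    intro q
    induction q with
    | zero => simp
    | succ q ih =>
      rw [Nat.succ_mul, pow_succ]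
      calc a (q * k + k) ≤ (1 - δ) * a (q * k) := step _
        _ ≤ (1 - δ) * ((1 - δ) ^ q * a 0) := mul_le_mul_of_nonneg_left ih (by linarith)
        _ = (1 - δ) ^ q * (1 - δ) * a 0 := by ring
  have lim : Tendsto (fun q : ℕ => (1 - δ) ^ q * a 0) atTop (𝓝 0) := by
    have := (tendsto_pow_atTop_nhds_zero_of_lt_one (r := 1 - δ) (by linarith)
      (by linarith)).mul_const (a 0)
    simpa using this
  rw [Metric.tendsto_atTop] at lim ⊢
  intro ε hε
  obtain ⟨q, hq⟩ := lim ε hε
  refine ⟨q * k, fun n hn => ?_⟩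
  have h2 := hq q le_rfl
  rw [Real.dist_eq, sub_zero] at h2 ⊢
  rw [abs_of_nonneg (a0 n)]
  exact (anti' hn).trans_lt ((geo q).trans_lt ((le_abs_self _).trans_lt h2))

end ergodic

section chain
variable {N : ℕ} [NeZero N] (p : Fin 4 → ℝ)

theorem rate_nonneg (hp : ∀ m, 0 ≤ p m ∧ p m ≤ 1) (x : Conf N) (i : Fin N) : 0 ≤ rate p x i := by
  unfold rate
  apply mul_nonneg (by positivity)
  split_ifs
  · linarith [(hp (nb x i)).2]
  · exact (hp (nb x i)).1

theorem rate_le (hp : ∀ m, 0 ≤ p m ∧ p m ≤ 1) (x : Conf N) (i : Fin N) :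
    rate p x i ≤ (N : ℝ)⁻¹ := by
  unfold rate
  have : (0 : ℝ) ≤ (N : ℝ)⁻¹ := by positivity
  split_ifs
  · nlinarith [(hp (nb x i)).1]
  · nlinarith [(hp (nb x i)).2]

theorem P_nonneg (hp : ∀ m, 0 ≤ p m ∧ p m ≤ 1) (x y : Conf N) : 0 ≤ P p x y := by
  unfold P
  apply add_nonneg
  · apply Finset.sum_nonneg
    intro i _
    split_ifs
    · exact rate_nonneg p hp x i
    · exact le_rfl
  · split_ifs
    · have h : ∑ i, rate p x i ≤ ∑ _i : Fin N, (N : ℝ)⁻¹ :=
        Finset.sum_le_sum fun i _ => rate_le p hp x i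
      rw [Finset.sum_const, Finset.card_univ, Fintype.card_fin, nsmul_eq_mul,
        mul_inv_cancel₀ (Nat.cast_ne_zero.2 (NeZero.ne N))] at h
      linarith
    · exact le_rfl

theorem P_sum (x : Conf N) : ∑ y, P p x y = 1 := by
  unfold P
  rw [Finset.sum_add_distrib, Finset.sum_comm]
  simp

theorem P_down (hp : ∀ m, 0 ≤ p m ∧ p m ≤ 1) (c : ℝ) (hc : ∀ m, c ≤ 1 - p m) (x : Conf N)
    (i : Fin N) : (N : ℝ)⁻¹ * c ≤ P p x (Function.update x i false) := by
  have hN : (0 : ℝ) ≤ (N : ℝ)⁻¹ := by positivity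
  cases hx : x i with
  | false =>
    have e1 : Function.update x i false = x := by
      rw [← hx]; exact Function.update_eq_self i x
    rw [e1]
    unfold P
    rw [if_pos rfl]
    have h1 : 0 ≤ ∑ i, (if x = flp x i then rate p x i else 0) := by
      apply Finset.sum_nonneg
      intro i _
      split_ifs
      · exact rate_nonneg p hp x i
      · exact le_rfl
    have h2 : ∑ j, rate p x j ≤ ∑ j : Fin N, ((N : ℝ)⁻¹ -
        (if j = i then (N : ℝ)⁻¹ * (1 - p (nb x i)) else 0)) := by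
      apply Finset.sum_le_sum
      intro j _
      split_ifs with h
      · rw [h]
        unfold rate
        rw [hx, if_neg (by simp)]
        linarith
      · rw [sub_zero]; exact rate_le p hp x j
    rw [Finset.sum_sub_distrib, Finset.sum_const, Finset.card_univ, Fintype.card_fin, nsmul_eq_mul,
        mul_inv_cancel₀ (Nat.cast_ne_zero.2 (NeZero.ne N)), Finset.sum_ite_eq' univ i,
        if_pos (Finset.mem_univ i)] at h2
    have h3 := mul_le_mul_of_nonneg_left (hc (nb x i)) hN
    linarith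
  | true =>
    have e1 : Function.update x i false = flp x i := by
      unfold flp; rw [hx]; rfl
    rw [e1]
    unfold P
    have h0 : flp x i ≠ x := by
      intro h
      have := congrFun h i
      unfold flp at this
      rw [Function.update_self, hx] at this
      simp at this
    rw [if_neg h0, add_zero]
    have h1 : (if flp x i = flp x i then rate p x i else 0) ≤
        ∑ j, (if flp x i = flp x j then rate p x j else 0) := by
      apply Finset.single_le_sum (f := fun j => if flp x i = flp x j then rate p x j else 0) _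
        (Finset.mem_univ i)
      intro j _
      split_ifs
      · exact rate_nonneg p hp x j
      · exact le_rfl
    rw [if_pos rfl] at h1
    refine le_trans ?_ h1
    unfold rate
    rw [hx, if_pos rfl]
    exact mul_le_mul_of_nonneg_left (hc _) hN

theorem minor (hp : ∀ m, 0 ≤ p m ∧ p m ≤ 1) (c : ℝ) (hc0 : 0 ≤ c) (hc : ∀ m, c ≤ 1 - p m)
    (x : Conf N) (n : ℕ) (hn : n ≤ N) :
    ((N : ℝ)⁻¹ * c) ^ n ≤ ((Matrix.of (P p)) ^ n) x (fun i => if (i : ℕ) < n then false else x i) := by
  induction n with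
  | zero => simp
  | succ n ih =>
    have ih' := ih (by omega)
    rw [pow_succ, pow_succ, Matrix.mul_apply]
    set z : Conf N := fun i => if (i : ℕ) < n then false else x i with hz
    have e1 : (fun i : Fin N => if (i : ℕ) < n + 1 then false else x i) =
        Function.update z ⟨n, by omega⟩ false := by
      funext i
      by_cases h : i = ⟨n, by omega⟩
      · rw [h, Function.update_self, if_pos (by simp)]
      · rw [Function.update_of_ne h]
        have h' : (i : ℕ) ≠ n := fun h2 => h (Fin.ext h2)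
        simp only [hz]
        by_cases h3 : (i : ℕ) < n
        · rw [if_pos h3, if_pos (by omega)]
        · rw [if_neg h3, if_neg (by omega)]
    rw [e1]
    have h2 := P_down p hp c hc z ⟨n, by omega⟩
    have hN : (0 : ℝ) ≤ (N : ℝ)⁻¹ := by positivity
    have h3 : ((Matrix.of (P p)) ^ n) x z * (Matrix.of (P p)) z (Function.update z ⟨n, by omega⟩ false)
        ≤ ∑ w, ((Matrix.of (P p)) ^ n) x w *
          (Matrix.of (P p)) w (Function.update z ⟨n, by omega⟩ false) := by
      apply Finset.single_le_sum (f := fun w => ((Matrix.of (P p)) ^ n) x w *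
          (Matrix.of (P p)) w (Function.update z ⟨n, by omega⟩ false)) _ (Finset.mem_univ z)
      intro w _
      exact mul_nonneg ((pow_stoch (Matrix.of (P p)) (P_nonneg p hp) (P_sum p) n).1 x w)
        (P_nonneg p hp _ _)
    refine le_trans ?_ h3
    exact mul_le_mul ih' h2 (mul_nonneg hN hc0)
      ((pow_stoch (Matrix.of (P p)) (P_nonneg p hp) (P_sum p) n).1 x z)

/-- If all `p_m < 1` the chain is ergodic. -/
theorem ergodic_of (hp : ∀ m, 0 ≤ p m ∧ p m < 1) (π : Conf N → ℝ) (hπ : Stationary p π) :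
    ErgodicWith p π := by
  have hp' : ∀ m, 0 ≤ p m ∧ p m ≤ 1 := fun m => ⟨(hp m).1, (hp m).2.le⟩
  obtain ⟨c, hc0, hc1, hc⟩ : ∃ c : ℝ, 0 < c ∧ c ≤ 1 ∧ ∀ m, c ≤ 1 - p m := by
    refine ⟨min (min (1 - p 0) (1 - p 1)) (min (1 - p 2) (1 - p 3)), ?_, ?_, ?_⟩
    · exact lt_min (lt_min (by linarith [(hp 0).2]) (by linarith [(hp 1).2]))
        (lt_min (by linarith [(hp 2).2]) (by linarith [(hp 3).2]))
    · refine (min_le_left _ _).trans ((min_le_left _ _).trans ?_)
      linarith [(hp 0).1]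
    · intro m
      fin_cases m
      · exact (min_le_left _ _).trans (min_le_left _ _)
      · exact (min_le_left _ _).trans (min_le_right _ _)
      · exact (min_le_right _ _).trans (min_le_left _ _)
      · exact (min_le_right _ _).trans (min_le_right _ _)
  have hN1 : (1 : ℝ) ≤ N := by exact_mod_cast Nat.one_le_iff_ne_zero.2 (NeZero.ne N)
  have hN0 : (0 : ℝ) < (N : ℝ)⁻¹ := by positivity
  have hNi : (N : ℝ)⁻¹ ≤ 1 := inv_le_one_of_one_le₀ hN1
  have hδ0 : 0 < ((N : ℝ)⁻¹ * c) ^ N := by positivity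
  have hδ1 : ((N : ℝ)⁻¹ * c) ^ N ≤ 1 := by
    apply pow_le_one₀ (by positivity)
    nlinarith
  have hδ : ∀ x : Conf N, ((N : ℝ)⁻¹ * c) ^ N ≤ ((Matrix.of (P p)) ^ N) x (fun _ => false) := by
    intro x
    have := minor p hp' c hc0.le hc x N le_rfl
    have e : (fun i : Fin N => if (i : ℕ) < N then false else x i) = fun _ => false := by
      funext i; rw [if_pos i.2]
    rwa [e] at this
  have conv := fun s hs => converge (Matrix.of (P p)) (P_nonneg p hp') (P_sum p) (fun _ => false)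
    _ hδ0 hδ1 N hδ s hs
  have stat : ∀ π', Stationary p π' → ∀ (n : ℕ) (y : Conf N),
      ∑ x, π' x * ((Matrix.of (P p)) ^ n) x y = π' y := by
    intro π' hπ' n
    induction n with
    | zero => intro y; simp [Matrix.one_apply]
    | succ n ih =>
      intro y
      simp only [pow_succ, Matrix.mul_apply, Finset.mul_sum]
      rw [Finset.sum_comm]
      have : ∀ w, ∑ x, π' x * (((Matrix.of (P p)) ^ n) x w * (Matrix.of (P p)) w y) =
          π' w * P p w y := by
        intro w
        rw [← ih w, Finset.sum_mul]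
        refine Finset.sum_congr rfl fun x _ => ?_
        rw [mul_assoc]; rfl
      rw [Finset.sum_congr rfl fun w _ => this w]
      exact hπ'.2.2 y
  refine ⟨hπ, fun π' hπ' => ?_, fun ν _ hν1 y => ?_⟩
  · have h1 := conv (fun x => π' x - π x) (by
      rw [Finset.sum_sub_distrib, hπ'.2.1, hπ.2.1, sub_self])
    have h2 : ∀ n : ℕ, ∑ y, |∑ x, (π' x - π x) * ((Matrix.of (P p)) ^ n) x y| =
        ∑ y, |π' y - π y| := by
      intro n
      refine Finset.sum_congr rfl fun y _ => ?_
      simp only [sub_mul, Finset.sum_sub_distrib, stat π' hπ', stat π hπ]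
    simp only [h2] at h1
    have h3 := tendsto_nhds_unique h1 tendsto_const_nhds
    funext x
    have h4 := (Finset.sum_eq_zero_iff_of_nonneg (fun y _ => abs_nonneg (π' y - π y))).1 h3.symm x
      (Finset.mem_univ x)
    linarith [abs_eq_zero.1 h4]
  · have h1 := conv (fun x => ν x - π x) (by
      rw [Finset.sum_sub_distrib, hν1, hπ.2.1, sub_self])
    have h2 : ∀ n : ℕ, |∑ x, ν x * ((Matrix.of (P p)) ^ n) x y - π y| ≤
        ∑ y, |∑ x, (ν x - π x) * ((Matrix.of (P p)) ^ n) x y| := by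
      intro n
      have e : ∑ x, ν x * ((Matrix.of (P p)) ^ n) x y - π y =
          ∑ x, (ν x - π x) * ((Matrix.of (P p)) ^ n) x y := by
        simp only [sub_mul, Finset.sum_sub_distrib, stat π hπ]
      rw [e]
      exact Finset.single_le_sum (f := fun y =>
        |∑ x, (ν x - π x) * ((Matrix.of (P p)) ^ n) x y|) (fun _ _ => abs_nonneg _)
        (Finset.mem_univ y)
    rw [tendsto_iff_norm_sub_tendsto_zero]
    exact squeeze_zero (fun _ => norm_nonneg _) h2 h1

end chain

section numbers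

/-- weights by number of ones and, for two ones, by their position -/
def wt (a b c d e f : ℚ) (x : Conf 4) : ℚ :=
  match (x 0).toNat + (x 1).toNat + (x 2).toNat + (x 3).toNat with
  | 0 => a
  | 1 => b
  | 2 => if x 0 = x 2 then d else c
  | 3 => e
  | _ => f

def q1 : Fin 4 → ℚ := ![3 / 4, 19 / 20, 19 / 20, 1 / 20]
def q2 : Fin 4 → ℚ := ![19 / 20, 19 / 20, 19 / 20, 1 / 20]

def π1 : Conf 4 → ℚ := wt (4541 / 528284) (13623 / 528284) (14592 / 528284) (138567 / 528284)
  (33003 / 528284) (1737 / 528284)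
def π2 : Conf 4 → ℚ := wt (16 / 41740) (304 / 41740) (361 / 41740) (16606 / 41740)
  (1444 / 41740) (76 / 41740)

def q3 : Fin 4 → ℚ := ![19 / 20, 1 / 20, 1 / 20, 1 / 20]
def q4 : Fin 4 → ℚ := ![19 / 20, 1 / 20, 1 / 20, 1 / 4]

def π3 : Conf 4 → ℚ := wt (76 / 41740) (1444 / 41740) (361 / 41740) (16606 / 41740)
  (304 / 41740) (16 / 41740)
def π4 : Conf 4 → ℚ := wt (1737 / 528284) (33003 / 528284) (14592 / 528284) (138567 / 528284)
  (13623 / 528284) (4541 / 528284)

theorem stat1 : ∀ y, ∑ x, π1 x * P q1 x y = π1 y := by decide +kernel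
theorem stat2 : ∀ y, ∑ x, π2 x * P q2 x y = π2 y := by decide +kernel
theorem stat3 : ∀ y, ∑ x, π3 x * P q3 x y = π3 y := by decide +kernel
theorem stat4 : ∀ y, ∑ x, π4 x * P q4 x y = π4 y := by decide +kernel
theorem sum1 : ∑ x, π1 x = 1 := by decide +kernel
theorem sum2 : ∑ x, π2 x = 1 := by decide +kernel
theorem sum3 : ∑ x, π3 x = 1 := by decide +kernel
theorem sum4 : ∑ x, π4 x = 1 := by decide +kernel
theorem nn1 : ∀ x, 0 ≤ π1 x := by decide +kernel
theorem nn2 : ∀ x, 0 ≤ π2 x := by decide +kernel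
theorem nn3 : ∀ x, 0 ≤ π3 x := by decide +kernel
theorem nn4 : ∀ x, 0 ≤ π4 x := by decide +kernel
theorem mean1 : mean q1 π1 = 8989 / 132071 := by decide +kernel
theorem mean2 : mean q2 π2 = 117 / 2087 := by decide +kernel
theorem mean3 : mean q3 π3 = -117 / 2087 := by decide +kernel
theorem mean4 : mean q4 π4 = -8989 / 132071 := by decide +kernel

end numbers

section cast
variable {N : ℕ} [NeZero N]

theorem rate_cast (q : Fin 4 → ℚ) (x : Conf N) (i : Fin N) :
    rate (fun m => (q m : ℝ)) x i = ((rate q x i : ℚ) : ℝ) := by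
  unfold rate
  split_ifs <;> push_cast <;> rfl

theorem P_cast (q : Fin 4 → ℚ) (x y : Conf N) :
    P (fun m => (q m : ℝ)) x y = ((P q x y : ℚ) : ℝ) := by
  unfold P
  push_cast
  simp only [rate_cast]
  congr 1
  · refine Finset.sum_congr rfl fun i _ => ?_
    split_ifs <;> simp
  · split_ifs <;> simp

theorem mean_cast (q : Fin 4 → ℚ) (π : Conf N → ℚ) :
    mean (fun m => (q m : ℝ)) (fun x => (π x : ℝ)) = ((mean q π : ℚ) : ℝ) := by
  unfold mean
  push_cast
  rfl

theorem stationary_cast (q : Fin 4 → ℚ) (π : Conf N → ℚ) (h0 : ∀ x, 0 ≤ π x)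
    (h1 : ∑ x, π x = 1) (h : ∀ y, ∑ x, π x * P q x y = π y) :
    Stationary (fun m => (q m : ℝ)) (fun x => (π x : ℝ)) := by
  refine ⟨fun x => by simp only; exact_mod_cast h0 x, by simp only; exact_mod_cast h1,
    fun y => ?_⟩
  simp only [P_cast]
  exact_mod_cast h y

end cast

/-- Monotonicity in the variable `p_j` fails for `N` players: there are two parameter vectors in
`[0,1]^4` with ergodic chains, equal except that `p_j < p'_j`, with `μ^N(p') < μ^N(p)`. -/
def FailsAt (N : ℕ) [NeZero N] (j : Fin 4) : Prop :=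
  ∃ (p p' : Fin 4 → ℝ) (π π' : Conf N → ℝ),
    (∀ m, 0 ≤ p m ∧ p m ≤ 1) ∧ (∀ m, 0 ≤ p' m ∧ p' m ≤ 1) ∧
    p j < p' j ∧ (∀ m, m ≠ j → p m = p' m) ∧
    ErgodicWith p π ∧ ErgodicWith p' π' ∧ mean p' π' < mean p π

/-- Q1 has a negative answer, already for `N = 4`, for the variables `p_0` and `p_3`. -/
theorem result : FailsAt 4 0 ∧ FailsAt 4 3 := by
  have b1 : ∀ m, 0 ≤ q1 m ∧ q1 m < 1 := by decide +kernel
  have b2 : ∀ m, 0 ≤ q2 m ∧ q2 m < 1 := by decide +kernel
  have b3 : ∀ m, 0 ≤ q3 m ∧ q3 m < 1 := by decide +kernel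
  have b4 : ∀ m, 0 ≤ q4 m ∧ q4 m < 1 := by decide +kernel
  have c : ∀ q : Fin 4 → ℚ, (∀ m, 0 ≤ q m ∧ q m < 1) → ∀ m, 0 ≤ (q m : ℝ) ∧ (q m : ℝ) < 1 := by
    intro q h m
    exact ⟨by exact_mod_cast (h m).1, by exact_mod_cast (h m).2⟩
  constructor
  · refine ⟨fun m => (q1 m : ℝ), fun m => (q2 m : ℝ), fun x => (π1 x : ℝ), fun x => (π2 x : ℝ),
      fun m => ⟨(c q1 b1 m).1, (c q1 b1 m).2.le⟩, fun m => ⟨(c q2 b2 m).1, (c q2 b2 m).2.le⟩,
      ?_, ?_, ergodic_of _ (c q1 b1) _ (stationary_cast _ _ nn1 sum1 stat1),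
      ergodic_of _ (c q2 b2) _ (stationary_cast _ _ nn2 sum2 stat2), ?_⟩
    · have : q1 0 < q2 0 := by decide +kernel
      simp only
      exact_mod_cast this
    · have : ∀ m, m ≠ 0 → q1 m = q2 m := by decide +kernel
      intro m hm
      simp only
      exact_mod_cast this m hm
    · rw [mean_cast, mean_cast, mean1, mean2]
      norm_num
  · refine ⟨fun m => (q3 m : ℝ), fun m => (q4 m : ℝ), fun x => (π3 x : ℝ), fun x => (π4 x : ℝ),
      fun m => ⟨(c q3 b3 m).1, (c q3 b3 m).2.le⟩, fun m => ⟨(c q4 b4 m).1, (c q4 b4 m).2.le⟩,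
      ?_, ?_, ergodic_of _ (c q3 b3) _ (stationary_cast _ _ nn3 sum3 stat3),
      ergodic_of _ (c q4 b4) _ (stationary_cast _ _ nn4 sum4 stat4), ?_⟩
    · have : q3 3 < q4 3 := by decide +kernel
      simp only
      exact_mod_cast this
    · have : ∀ m, m ≠ 3 → q3 m = q4 m := by decide +kernel
      intro m hm
      simp only
      exact_mod_cast this m hm
    · rw [mean_cast, mean_cast, mean3, mean4]
      norm_num

end Pool.Agent.Results.MP_313e16_pr.NotMonotone
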